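import Pool.Agent.H837.AJ.Defs

/-!
# Conjugate varieties and the absolute kernel of the Abel–Jacobi map: definitions
-/

open CategoryTheory CategoryTheory.Limits AlgebraicGeometry
open Pool.Agent.H914 Pool.Agent.H914.VarClass Pool.Agent.H914.VarClass.Obj Pool.Agent.R903
open Pool.Agent.T6.H15.BB Pool.Agent.H837.AJ

universe u v w u' v' w'

namespace Pool.Agent.H837.Conj

section Conjugation

variable {K : Type u} [Field K] {𝒱 : VarClass K} {C : ChowTheory.{u, v} 𝒱}

/-- Numerical and homological equivalence coincide, and there is a Bloch–Beilinson filtration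
(conditions 1 to 4 of the problem) with `F^2 = N`. -/
def BBHolds (W : WeilTheory.{u, v, w} C) (N : Kernels C) : Prop :=
  (∀ X, HomEqNum (ofVariety W N X)) ∧ ∃ F, IsBBAJ W N F

/-- `N'` is the **absolute kernel**: a class `x` lies in `N' X j` if `x` and all its conjugates
`x^σ` lie in the kernels of the Abel–Jacobi maps of `X` and of the conjugate varieties `X^σ`, for
all `σ` in `G`. -/
def IsAbsolute (G : BaseExtension C C → Prop) (N N' : Kernels C) : Prop :=
  ∀ X j x, MemSub (N' X j) x ↔
    MemSub (N X j) x ∧ ∀ σ, G σ → MemSub (N (σ.obj X) j) (valueAt (σ.ch X) x)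

/-- The elements of `G` are base changes along automorphisms of `K` over `k₀`. They have the
properties of an extension of the base field, the Abel–Jacobi kernels of the conjugate varieties
being transported to the kernels `M`. -/
def AreConjugations (W : WeilTheory.{u, v, w} C) (N : Kernels C) (G : BaseExtension C C → Prop) :
    Prop :=
  ∀ σ, G σ → ∃ M, IsExtension W M W N σ

end Conjugation

section Extension

variable {k₀ : Type u} [Field k₀] {𝒱₀ : VarClass k₀} {C₀ : ChowTheory.{u, v} 𝒱₀}
  (W₀ : WeilTheory.{u, v, w} C₀) (N₀ : Kernels C₀)
  {K : Type u'} [Field K] {𝒱 : VarClass K} {C : ChowTheory.{u', v'} 𝒱}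
  (W : WeilTheory.{u', v', w'} C) (N N' : Kernels C)

/-- Spreading out is possible, for every variety `X` over `K`, every correspondence `δ` of degree
zero from `X` to `X`, and every `x` in `CH^j(X)`. If `x` lies in the absolute kernel, the class of
the spread of `x` lies in the step two of the Leray filtration: the normal function of the spread
is torsion at all points of the base which are conjugate to the point of `X`, hence at all points
outside a countable union of proper closed subvarieties (if `k₀` is countable), so it is torsion by
the theorem of Baire. -/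
def CanSpreadAbsolute : Prop :=
  ∀ (X : 𝒱.Obj) (j : ℕ) (δ : Corr0 C X) (x : C.CH X), InCH C X j x →
    ∃ (Y : 𝒱₀.Obj) (Φ : _) (S : _), IsSpreadOf W₀ N₀ W N j δ x (Y := Y) Φ S ∧
      (MemSub (N' X j) x → S.ClassIn (2 * j) 2)

end Extension

end Pool.Agent.H837.Conj
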