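import Pool.Agent.H837.Conj.Defs
import Pool.Agent.H837.AJ.Final

/-!
# The absolute kernel of the Abel–Jacobi map
-/

open CategoryTheory CategoryTheory.Limits AlgebraicGeometry Polynomial
open Pool.Agent.H914 Pool.Agent.H914.VarClass Pool.Agent.H914.VarClass.Obj Pool.Agent.R903
open Pool.Agent.R903.WeilTheory Pool.Agent.T6.H15.BB Pool.Agent.H837.AJ

universe u v w u' v' w' t

namespace Pool.Agent.H837.Conj

section Base

variable {k : Type u} [Field k] {𝒱 : VarClass k} {C : ChowTheory.{u, v} 𝒱}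
  {W : WeilTheory.{u, v, w} C}

lemma filCore {N : Kernels C} {F : Family C} (h : IsBBAJ W N F) :
    FilCore W (fun _ => True) F where
  anti X _ i k x hx := h.anti X i k x hx
  zero X _ i := Submodule.ext fun x => h.zero X i x
  one X _ i x := h.one X i x
  top X _ i := (Submodule.eq_bot_iff _).2 fun x hx => h.top X i x hx

lemma degOn {N : Kernels C} {F : Family C} (h : IsBBAJ W N F) : DegOn W (fun _ => True) F := by
  intro X _ δ hδ i j k hjk x hx
  have h1 : C.act (δ - (j : ℚ) • C.diagC X) x ∈ F X i (k + 1) :=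
    h.motivic X X (δ - (j : ℚ) • C.diagC X) i i j k x
      ⟨X.dim, rfl, Submodule.sub_mem _ hδ.1 (Submodule.smul_mem _ _ (C.diagC_mem X))⟩ hjk
      (kills_sub_smul hδ j) hx
  rwa [C.act_sub, C.act_smul, LinearMap.sub_apply, LinearMap.smul_apply, C.act_diagC] at h1

lemma lefschetz {N : Kernels C} (hD : ∀ X, HomEqNum (ofVariety W N X))
    (hH : ∀ X, HardLefschetz (ofVariety W N X) X.dim) (X : 𝒱.Obj) : LefschetzStd W X := by
  obtain ⟨D, hD1, h⟩ := hH X
  refine Jan.lefschetzStd hD hD1 fun b hb a ha h0 => h b hb a ha ?_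
  rw [map_pow] at h0
  exact h0

/-- uniqueness of the filtration, whatever the kernels are -/
theorem unique (hL : ∀ X, LefschetzStd W X) {N N' : Kernels C} {F F' : Family C}
    (h : IsBBAJ W N F) (h' : IsBBAJ W N' F') (X : 𝒱.Obj) (i n : ℕ) : F X i n = F' X i n := by
  have hE : EigOn W (fun _ => True) := (degOn h).eig (filCore h)
  obtain ⟨π, hπ⟩ := (EigOn.good (fun _ _ _ _ => trivial)
    (fun X _ j => exists_proj_of_lefschetz (hL X) j) hE).ck X trivial
  rw [(degOn h).eq_ckFil (filCore h) trivial hπ, (degOn h').eq_ckFil (filCore h') trivial hπ]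

lemma kernel_eq (hL : ∀ X, LefschetzStd W X) {N N' : Kernels C} {F F' : Family C}
    (h : IsBBAJ W N F) (h' : IsBBAJ W N' F') : N = N' := by
  funext X j
  ext x
  exact ((h.two X j x).symm.trans (by rw [InF, InF, unique hL h h'])).trans (h'.two X j x)

/-- the absolute kernel has the formal properties of the kernel -/
lemma isAJKernel {N N' : Kernels C} {G : BaseExtension C C → Prop} (hN : IsAJKernel W N)
    (hG : AreConjugations W N G) (hN' : IsAbsolute G N N') : IsAJKernel W N' where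
  hom X j x hx := hN.hom X j x ((hN' X j x).1 hx).1
  corr X Y γ j i x h hx := by
    refine (hN' Y i _).2 ⟨hN.corr X Y γ j i x h ((hN' X j x).1 hx).1, fun σ hσ => ?_⟩
    obtain ⟨M, hM⟩ := hG σ hσ
    have h1 := hN.corr _ _ _ j i _ (hM.corr_mem X Y γ j i h) (((hN' X j x).1 hx).2 σ hσ)
    change σ.ch Y (C.act γ x) ∈ _
    rw [hM.act]
    exact h1
  kills X Y γ j i m x h hm hk hx := by
    refine (hN' Y i _).2 ⟨hN.kills X Y γ j i m x h hm hk hx, fun σ hσ => ?_⟩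
    obtain ⟨M, hM⟩ := hG σ hσ
    have h1 := hN.kills _ _ _ j i m (σ.ch X x) (hM.corr_mem X Y γ j i h) hm
      (hM.corr_kills X Y γ m hk) ⟨((hM.emb X).gr j x).2 hx.1, ((hM.emb X).cl x).2 hx.2⟩
    change σ.ch Y (C.act γ x) ∈ _
    rw [hM.act]
    exact h1

/-- the kernel of a Bloch–Beilinson filtration is absolute -/
lemma eq_absolute {N N' : Kernels C} {G : BaseExtension C C → Prop}
    (hD : ∀ X, HomEqNum (ofVariety W N X)) (hH : ∀ X, HardLefschetz (ofVariety W N X) X.dim)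
    (hG : AreConjugations W N G) (hN' : IsAbsolute G N N') {F : Family C} (hF : IsBBAJ W N F) :
    N = N' := by
  funext X j
  ext x
  refine Iff.trans ⟨fun hx => ⟨hx, fun σ hσ => ?_⟩, fun h => h.1⟩ (hN' X j x).symm
  obtain ⟨M, hM⟩ := hG σ hσ
  have h1 : N = M := kernel_eq (lefschetz hD hH) hF (descent hM hF)
  exact ((hM.emb X).ker j x).2 (h1 ▸ hx)

end Base

section Extension

variable {k₀ : Type u} [Field k₀] {𝒱₀ : VarClass k₀} {C₀ : ChowTheory.{u, v} 𝒱₀}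
  {W₀ : WeilTheory.{u, v, w} C₀} {N₀ : Kernels C₀}
  {K : Type u'} [Field K] {𝒱 : VarClass K} {C : ChowTheory.{u', v'} 𝒱}
  {W : WeilTheory.{u', v', w'} C} {N N' : Kernels C}

/-- the same spread, with other kernels -/
def conv (N' : Kernels C) {X : 𝒱.Obj} {Y : 𝒱₀.Obj}
    (S : Spread (ofVariety W₀ N₀ Y) (ofVariety W N X)) :
    Spread (ofVariety W₀ N₀ Y) (ofVariety W N' X) where
  b := S.b
  ε := S.ε
  y := S.y
  τ := S.τ
  res := S.res
  L := S.L

lemma isSpreadOf_conv {X : 𝒱.Obj} {j : ℕ} (hle : N' X j ≤ N X j) {δ : Corr0 C X} {x : C.CH X}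
    {Y : 𝒱₀.Obj} {Φ : MorClass Y} {S : Spread (ofVariety W₀ N₀ Y) (ofVariety W N X)}
    (h : IsSpreadOf W₀ N₀ W N j δ x Φ S) : IsSpreadOf W₀ N₀ W N' j δ x Φ (conv N' S) :=
  ⟨h.1, ⟨h.2.y_mem, h.2.τ_mem, h.2.res_y, h.2.res_act, h.2.res_zero, h.2.leray, h.2.class_one,
    fun z hz hz0 hz1 => h.2.jacobian z hz hz0 (hle hz1), h.2.deg, h.2.fibre⟩⟩

/-- the ascent, for the kernels whose normal functions have trivial topological invariant -/
theorem ascent' (hH : ∀ X, HardLefschetz (ofVariety W N' X) X.dim)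
    (hR' : ∀ X, HomEqNum (ofVariety W₀ N₀ X)) (hle : ∀ X j, N' X j ≤ N X j)
    (hS : CanSpreadAbsolute W₀ N₀ W N N') (hN : IsAJKernel W N') {F : Family C₀}
    (hF : IsBBAJ W₀ N₀ F) : ∃ F, IsBBAJ W N' F := by
  have hR : Jan.HomEqNum W₀ := hR'
  have hS' : CanSpread W₀ N₀ W N' := by
    intro X j δ x hx
    obtain ⟨Y, Φ, S, h, -⟩ := hS X j δ x hx
    exact ⟨Y, Φ, conv N' S, isSpreadOf_conv (hle X j) h⟩
  have hL' : ∀ X, LefschetzStd W X := lefschetz (homEqNum hR' hS') hH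
  have hG : GoodOn W (fun _ => True) :=
    ((eigUp hR hS' hF).good fun X j => exists_proj_of_lefschetz (hL' X) j).goodOn hL'
  refine GoodOn.exists_isBBAJ hG hN fun X j m π hm hπ x hx => ?_
  have hδ := isDegree_degCK hπ
  have hx' : C.act (π m) x ∈ N' X j := hN.corr X X (π m) j j x ⟨X.dim, rfl, hπ.mem m⟩ hx
  have hx1 := hN.hom X j _ hx'
  obtain ⟨Y, Φ, S, h, h2⟩ := hS X j ⟨_, hδ.1⟩ _ hx1.1
  exact (SpreadDeg.mk (isSpreadOf_conv (hle X j) h) hδ.2).eq_zero_of_ajTrivial hF hR hx' hm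
    (act_degCK hπ m x) (h2 hx')

theorem main {G : BaseExtension C C → Prop} (hN : IsAJKernel W N)
    (hL : ∀ X, HardLefschetz (ofVariety W N X) X.dim) (hG : AreConjugations W N G)
    (hN' : IsAbsolute G N N') (hS : CanSpreadAbsolute W₀ N₀ W N N') {E : BaseExtension C₀ C}
    (hE : IsExtension W₀ N₀ W N E) (hE' : IsExtension W₀ N₀ W N' E) :
    (BBHolds W N' ↔ BBHolds W₀ N₀) ∧
      (BBHolds W N ↔ BBHolds W₀ N₀ ∧ N = N') := by
  have hle : ∀ X j, N' X j ≤ N X j := fun X j x hx => ((hN' X j x).1 hx).1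
  have hS' : CanSpread W₀ N₀ W N := by
    intro X j δ x hx
    obtain ⟨Y, Φ, S, h, -⟩ := hS X j δ x hx
    exact ⟨Y, Φ, S, h⟩
  have key : BBHolds W N' ↔ BBHolds W₀ N₀ :=
    ⟨fun ⟨hD, F, hF⟩ => ⟨descent_num hE hD, ⟨_, descent hE' hF⟩⟩,
      fun ⟨hD, F₀, hF₀⟩ => ⟨homEqNum (N := N) hD hS',
        ascent' hL hD hle hS (isAJKernel hN hG hN') hF₀⟩⟩
  refine ⟨key, fun ⟨hD, F, hF⟩ => ?_, fun ⟨h, h'⟩ => ?_⟩
  · have h1 := eq_absolute hD hL hG hN' hF
    exact ⟨key.1 ⟨hD, F, h1 ▸ hF⟩, h1⟩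
  · obtain ⟨hD, F, hF⟩ := key.2 h
    exact ⟨hD, F, h' ▸ hF⟩

end Extension

end Pool.Agent.H837.Conj
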